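import Pool.Agent.Amb.DefBridge
import Pool.Agent.Amb.Final

/-!
# The Ambrose conjecture
-/

universe u

open Ambrose

/-- **The Ambrose conjecture is true.** Let `(M₁, p₁)` and `(M₂, p₂)` be pointed smooth complete
connected Riemannian manifolds of the same dimension and `L : T_{p₁} M₁ → T_{p₂} M₂` a linear
isometry. If `(M₁, p₁)` and `(M₂, p₂)` are `L`-related, then there are a pointed smooth complete
connected Riemannian manifold `(M, p)`, linear isometries `L_i : T_p M → T_{p_i} M_i` and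
Riemannian coverings `π_i : M → M_i` with `π_i ∘ exp_p = exp_{p_i} ∘ L_i` and `L ∘ L₁ = L₂`. -/
theorem Pool.Agent.Results.MP_35a9e6_gt.Ambrose.result (n : ℕ)
    (M₁ M₂ : RMfd.{u} (EuclideanSpace ℝ (Fin n))) (p₁ : M₁.pt) (p₂ : M₂.pt)
    (L : M₁.Iso M₂ p₁ p₂) (h : LRelated M₁ M₂ p₁ p₂ L) :
    HasCommonCovering M₁ M₂ p₁ p₂ L :=
  conjecture_of Amb.ambrose M₁ M₂ p₁ p₂ L h
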